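import Mathlib
import Pool.Agent.H12.Tang3

set_option autoImplicit false

namespace Pool.Agent.Results.MP_24547c_co.SupersolvableNormal

open scoped Classical Matroid
open Pool.Agent.H12.Tang

/-- Every supersolvable tangential k-block over a finite field is normal. -/
theorem result (F : Type) [Field F] [Fintype F] (k : ℕ) (_hk : 1 ≤ k)
    (α : Type) [Fintype α] (M : Matroid α)
    (ht : Tangential F k M) (hss : Supersolvable M) :
    SimpQuot (Fintype.card F ^ k + 1) M := by
  obtain ⟨⟨n, v, hv⟩, hs, hb, hm⟩ := ht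
  obtain ⟨Fl, -, hFl⟩ := hss
  have hb' := (critGt_iff hv k).1 hb
  obtain ⟨e, he, -⟩ := hb' 0
  have h1 : M.eRk {e} ≤ M.eRk M.E := M.eRk_mono (Set.singleton_subset_iff.2 he)
  have h2 : M.Indep {e} := by simpa using hs e he e he
  rw [h2.eRk_eq_encard, Set.encard_singleton] at h1
  obtain ⟨r, hr⟩ : ∃ r : ℕ, M.eRk M.E = r := ⟨_, eRk_eq hv (le_refl M.E)⟩
  rw [hr] at h1 hFl
  have h3 : 1 ≤ r := by exact_mod_cast h1
  obtain ⟨h4, h5⟩ := hFl (r - 1) (by exact_mod_cast Nat.sub_le r 1)
  refine normal_of_modular hv hs k hb' ?_ h4 ?_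
  · intro x hx
    apply tangent_of_simple_minors hv hs k hx
    intro D _ hD
    refine hm _ ?_ hD
    rw [Matroid.isStrictMinor_iff_isMinor_ssubset]
    refine ⟨M.contract_delete_isMinor _ _, ?_⟩
    rw [Matroid.delete_ground, Matroid.contract_ground]
    exact lt_of_le_of_lt Set.sdiff_subset (Set.sdiff_singleton_ssubset.2 hx)
  · rw [h5, hr]
    exact_mod_cast Nat.sub_add_cancel h3

end Pool.Agent.Results.MP_24547c_co.SupersolvableNormal
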